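import Pool.Agent.Lib.MP_b31404_co.CovMain

namespace Pool.Agent.Results.MP_b31404_co.StarCovering
open Pool.Agent.Lib.MP_b31404_co

theorem result (r s k : ℕ) (hs : 1 ≤ s) (n : Fin (r + 2) → ℕ) (hn : Antitone n)
    (hp : ∀ i, 0 < n i) (N N1 Q z : ℕ) (hN : N = ∑ i, n i) (hN1 : N1 = N - n 0)
    (hQ : Q = (n 0 + s - 1) / s) (hz : z = k - Q * N1) :
    CoveredByStars (SimpleGraph.completeMultipartiteGraph fun i => Fin (n i)) s k ↔
      if s ≤ N1 then (N1 ≤ k ∧ ∑ j, ∑ i ∈ Finset.Iio j, n i * n j ≤ s * k)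
      else (s ≤ N - n 1 ∧ Q * N1 ≤ k ∧ edgesOn n (N - z) ≤ s * Q * (N1 - z)) := by
  subst hN hN1 hz
  split_ifs with h
  · exact cover_one n hn hp hs h
  · exact cover_two n hn hp (not_le.1 h) hQ

end Pool.Agent.Results.MP_b31404_co.StarCovering
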