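import Pool.Agent.Lib.MP_b31404_co.Main

namespace Pool.Agent.Results.MP_b31404_co.StarPacking
open Pool.Agent.Lib.MP_b31404_co

theorem result (r s k : ℕ) (hs : 1 ≤ s) (n : Fin (r + 1) → ℕ) (hn : Antitone n)
    (N N1 q S z : ℕ) (hN : N = ∑ i, n i) (hN1 : N1 = N - n 0)
    (hq : q = if s ≤ N1 then 0 else n 0 / s) (hS : S = (q + 1) * s) (hz : z = k - q * N1) :
    HasStars (SimpleGraph.completeMultipartiteGraph fun i => Fin (n i)) s k ↔
      (S * z + edgesOn n (N - z) ≤ ∑ j, ∑ i ∈ Finset.Iio j, n i * n j ∧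
        (s ≤ N1 ∨ z ≤ ∑ i ∈ Finset.univ.filter (fun i => S ≤ N - n i), n i)) := by
  subst hN hN1
  by_cases h : s ≤ (∑ i, n i) - n 0
  · rw [if_pos h] at hq
    subst hq hS hz
    simpa [h] using case_one n hn hs h
  · rw [if_neg h] at hq
    subst hq hS hz
    simpa [h] using case_two n hn (not_le.1 h)

end Pool.Agent.Results.MP_b31404_co.StarPacking
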